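import Pool.Agent.H61.CM4.TargetsB

/-!
# Row CT2: continuity of the theta functions
-/

set_option autoImplicit false

open MeasureTheory Set Filter NumberField NumberField.InfinitePlace NumberField.Units
  NumberField.Units.dirichletUnitTheorem Pool.Agent.H65.CM4 Pool.Agent.H25.HK Pool.Agent.H61.CM4
open scoped Real Classical

namespace Pool.Agent.H13.CM4B

theorem qr_nonneg {y : ℝ} (hy : 0 < y) (x a b : ℝ) : 0 ≤ qr x y a b := by
  unfold qr
  positivity

theorem qs_mono {k : Type} [Field k] [NumberField k] [IsTotallyReal k] {x y c c' : Pl k → ℝ}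
    (hy : ∀ v, 0 < y v) (h : ∀ v, c v ≤ c' v) (u : V2 k) : qs x y c u ≤ qs x y c' u := by
  unfold qs
  exact Finset.sum_le_sum fun v _ =>
    mul_le_mul_of_nonneg_right (Real.exp_le_exp.2 (h v)) (qr_nonneg (hy v) _ _ _)

/-- Row CT2. -/
theorem pf_CT2 (hIXD : T_IXD) (hTHT : T_THT) : T_CT2 := by
  intro k _ _ _ M x y hy
  have htop : ix (⊤ : La k) ≠ 0 :=
    (hIXD k).2.2.2.1 ⊤ 1 one_pos (fun u => Submodule.mem_top)
  rw [continuous_iff_continuousAt]
  intro c0
  have hcont : ContinuousOn (th2 M x y) {c | ∀ v, -(1 + ∑ w, |c0 w|) < c v} := by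
    have hs := (hTHT k ⊤ x y (fun _ => -(1 + ∑ w, |c0 w|)) htop hy).1
    refine continuousOn_tsum (u := fun u : V2 k => if u ∈ (⊤ : La k) then
      Real.exp (-(2 * π) * qs x y (fun _ => -(1 + ∑ w, |c0 w|)) u) else 0) ?_ hs ?_
    · intro u
      refine Continuous.continuousOn ?_
      by_cases hu : u ∈ M
      · simp only [hu, if_true]
        unfold qs
        fun_prop
      · simp only [hu, if_false]
        exact continuous_const
    · intro u c hc
      rw [if_pos (Submodule.mem_top)]
      by_cases hu : u ∈ M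
      · rw [if_pos hu, Real.norm_eq_abs, abs_of_pos (Real.exp_pos _)]
        apply Real.exp_le_exp.2
        have h1 := qs_mono (x := x) (c := fun _ => -(1 + ∑ w, |c0 w|)) (c' := c) hy
          (fun v => (hc v).le) u
        have := Real.pi_pos
        nlinarith
      · rw [if_neg hu, norm_zero]
        exact (Real.exp_pos _).le
  refine hcont.continuousAt (IsOpen.mem_nhds ?_ ?_)
  · have : {c : Pl k → ℝ | ∀ v, -(1 + ∑ w, |c0 w|) < c v} =
        ⋂ v, {c | -(1 + ∑ w, |c0 w|) < c v} := by
      ext c
      simp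
    rw [this]
    exact isOpen_iInter_of_finite fun v => isOpen_lt continuous_const (continuous_apply v)
  · intro v
    have h1 : |c0 v| ≤ ∑ w, |c0 w| :=
      Finset.single_le_sum (f := fun w => |c0 w|) (fun w _ => abs_nonneg _) (Finset.mem_univ v)
    have h2 := neg_abs_le (c0 v)
    linarith

end Pool.Agent.H13.CM4B
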